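import Pool.Agent.PVD.StmtsL

/-! MP_e25c73_gt, block L, row GG1. -/

set_option autoImplicit false
open MeasureTheory

namespace Pool.Agent.PVD.L.H60

theorem int_quad (p q r a b : ℝ) : ∫ t in a..b, (p * t ^ 2 + q * t + r) =
    (p * b ^ 3 / 3 + q * b ^ 2 / 2 + r * b) - (p * a ^ 3 / 3 + q * a ^ 2 / 2 + r * a) := by
  have h : ∀ t : ℝ, HasDerivAt (fun t : ℝ => p * t ^ 3 / 3 + q * t ^ 2 / 2 + r * t)
      (p * t ^ 2 + q * t + r) t := by
    intro t
    have h1 := ((hasDerivAt_pow 3 t).const_mul p).div_const 3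
    have h2 := ((hasDerivAt_pow 2 t).const_mul q).div_const 2
    have h3 := (hasDerivAt_id t).const_mul r
    have h4 := (h1.add h2).add h3
    refine h4.congr_deriv ?_
    norm_num
    ring
  exact intervalIntegral.integral_eq_sub_of_hasDerivAt (fun t _ => h t)
    (by
      apply Continuous.intervalIntegrable
      fun_prop)

/-- a function which is given by quadratic polynomials on three intervals -/
theorem split3 {e : ℝ} (h0 : 0 < e) (h1 : e < 1 / 2) (F : ℝ → ℝ) (p0 q0 r0 p1 q1 r1 p2 q2 r2 : ℝ)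
    (f0 : ∀ t, 0 < t → t < e → F t = p0 * t ^ 2 + q0 * t + r0)
    (f1 : ∀ t, e < t → t < 1 - e → F t = p1 * t ^ 2 + q1 * t + r1)
    (f2 : ∀ t, 1 - e < t → t < 1 → F t = p2 * t ^ 2 + q2 * t + r2) :
    ∫ t in (0:ℝ)..1, F t =
      (p0 * e ^ 3 / 3 + q0 * e ^ 2 / 2 + r0 * e) +
      ((p1 * (1 - e) ^ 3 / 3 + q1 * (1 - e) ^ 2 / 2 + r1 * (1 - e)) -
        (p1 * e ^ 3 / 3 + q1 * e ^ 2 / 2 + r1 * e)) +
      ((p2 / 3 + q2 / 2 + r2) -
        (p2 * (1 - e) ^ 3 / 3 + q2 * (1 - e) ^ 2 / 2 + r2 * (1 - e))) := by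
  have c : ∀ p q r : ℝ, ∀ a b : ℝ,
      IntervalIntegrable (fun t : ℝ => p * t ^ 2 + q * t + r) volume a b := by
    intro p q r a b
    apply Continuous.intervalIntegrable
    fun_prop
  have e0 : Set.EqOn (fun t : ℝ => p0 * t ^ 2 + q0 * t + r0) F (Set.uIoo 0 e) := by
    intro t ht
    rw [Set.uIoo_of_le h0.le] at ht
    exact (f0 t ht.1 ht.2).symm
  have e1 : Set.EqOn (fun t : ℝ => p1 * t ^ 2 + q1 * t + r1) F (Set.uIoo e (1 - e)) := by
    intro t ht
    rw [Set.uIoo_of_le (by linarith)] at ht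
    exact (f1 t ht.1 ht.2).symm
  have e2 : Set.EqOn (fun t : ℝ => p2 * t ^ 2 + q2 * t + r2) F (Set.uIoo (1 - e) 1) := by
    intro t ht
    rw [Set.uIoo_of_le (by linarith)] at ht
    exact (f2 t ht.1 ht.2).symm
  have i0 := (c p0 q0 r0 0 e).congr_uIoo e0
  have i1 := (c p1 q1 r1 e (1 - e)).congr_uIoo e1
  have i2 := (c p2 q2 r2 (1 - e) 1).congr_uIoo e2
  rw [← intervalIntegral.integral_add_adjacent_intervals (i0.trans i1) i2,
    ← intervalIntegral.integral_add_adjacent_intervals i0 i1,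
    ← intervalIntegral.integral_congr_uIoo e0, ← intervalIntegral.integral_congr_uIoo e1,
    ← intervalIntegral.integral_congr_uIoo e2, int_quad, int_quad, int_quad]
  ring

theorem bas_one_near {e t : ℝ} (h0 : 0 < e) (h1 : e < 1 / 2) (ht : t < e) :
    fm e (bas e 1) t = t / e := by
  rw [bas_near h0 (by linarith) ht.le]
  ring

theorem bas_one_far {e t : ℝ} (h0 : 0 < e) (h1 : e < 1 / 2) (ht : e < t) :
    fm e (bas e 1) t = 1 := by
  rw [bas_far h0 (by linarith) ht.le]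
  ring

theorem aa_one {e : ℝ} (h0 : 0 < e) (h1 : e < 1 / 2) : aa e 1 = (1 + e ^ 2) / 2 := by
  unfold aa Hm
  rw [split3 h0 h1 (fun t => cl e 1 t / fm e (bas e 1) t) 0 0 e 0 1 0 0 1 0]
  · ring
  · intro t ht ht'
    show cl e 1 t / fm e (bas e 1) t = _
    rw [bas_one_near h0 h1 ht', cl_one]
    field_simp
    ring
  · intro t ht ht'
    show cl e 1 t / fm e (bas e 1) t = _
    rw [bas_one_far h0 h1 ht, cl_one]
    ring
  · intro t ht ht'
    show cl e 1 t / fm e (bas e 1) t = _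
    rw [bas_one_far h0 h1 (by linarith), cl_one]
    ring

theorem hh_one {e : ℝ} (h0 : 0 < e) (h1 : e < 1 / 2) : hh e 1 = e / 2 - e ^ 3 / 2 := by
  unfold hh Hm
  rw [split3 h0 h1 (fun t => cl e 2 t / fm e (bas e 1) t) 0 0 (e * (1 - e)) 0 (-e) e 0 (-e) e]
  · ring
  · intro t ht ht'
    show cl e 2 t / fm e (bas e 1) t = _
    rw [bas_one_near h0 h1 ht', cl_two, min_eq_left ht'.le]
    field_simp
    ring
  · intro t ht ht'
    show cl e 2 t / fm e (bas e 1) t = _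
    rw [bas_one_far h0 h1 ht, cl_two, min_eq_right ht.le]
    ring
  · intro t ht ht'
    show cl e 2 t / fm e (bas e 1) t = _
    rw [bas_one_far h0 h1 (by linarith), cl_two, min_eq_right (by linarith)]
    ring

theorem cc_one {e : ℝ} (h0 : 0 < e) (h1 : e < 1 / 2) :
    cc e 1 = e / 2 - e ^ 2 / 2 + e ^ 3 / 2 := by
  unfold cc Hm
  rw [split3 h0 h1 (fun t => cl e 3 t / fm e (bas e 1) t) 0 0 (e ^ 2) 0 e 0 0 (-(1 - e)) (1 - e)]
  · ring
  · intro t ht ht'
    show cl e 3 t / fm e (bas e 1) t = _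
    rw [bas_one_near h0 h1 ht', cl_three, min_eq_left (by linarith)]
    field_simp
    ring
  · intro t ht ht'
    show cl e 3 t / fm e (bas e 1) t = _
    rw [bas_one_far h0 h1 ht, cl_three, min_eq_left ht'.le]
    ring
  · intro t ht ht'
    show cl e 3 t / fm e (bas e 1) t = _
    rw [bas_one_far h0 h1 (by linarith), cl_three, min_eq_right ht.le]
    ring

theorem JJ_one {e : ℝ} (h0 : 0 < e) (h1 : e < 1 / 2) :
    JJ e 1 = e / 6 - e ^ 2 / 2 - e ^ 3 / 3 + 4 / 3 * e ^ 4 := by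
  unfold JJ
  rw [split3 h0 h1 (fun t => t * (cl e 3 t - cl e 2 t) / (fm e (bas e 1) t) ^ 2)
    0 0 ((2 * e - 1) * e ^ 2) (2 * e) (-e) 0 (-(1 - 2 * e)) (1 - 2 * e) 0]
  · ring
  · intro t ht ht'
    show t * (cl e 3 t - cl e 2 t) / (fm e (bas e 1) t) ^ 2 = _
    rw [bas_one_near h0 h1 ht', cl_three, cl_two, min_eq_left (by linarith), min_eq_left ht'.le]
    field_simp
    ring
  · intro t ht ht'
    show t * (cl e 3 t - cl e 2 t) / (fm e (bas e 1) t) ^ 2 = _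
    rw [bas_one_far h0 h1 ht, cl_three, cl_two, min_eq_left ht'.le, min_eq_right ht.le]
    ring
  · intro t ht ht'
    show t * (cl e 3 t - cl e 2 t) / (fm e (bas e 1) t) ^ 2 = _
    rw [bas_one_far h0 h1 (by linarith), cl_three, cl_two, min_eq_right ht.le,
      min_eq_right (by linarith : e ≤ t)]
    ring

theorem gg1 : Gg1Stmt := by
  intro e h0 h1
  have h2 : e < 1 / 2 := by linarith
  unfold GG
  rw [aa_one h0 h2, hh_one h0 h2, cc_one h0 h2, JJ_one h0 h2]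
  have h3 : (e / 2 - e ^ 3 / 2 + (e / 2 - e ^ 2 / 2 + e ^ 3 / 2)) * (1 + e / 1) -
      2 * (e / 2 - e ^ 3 / 2) * ((1 + e ^ 2) / 2) -
      (e / 6 - e ^ 2 / 2 - e ^ 3 / 3 + 4 / 3 * e ^ 4) =
      e * (1 / 3 + e - e ^ 2 / 6 - 4 / 3 * e ^ 3 + e ^ 4 / 2) := by
    ring
  rw [h3]
  apply mul_pos h0
  have h4 : e ^ 2 < 1 := by nlinarith
  have h5 : e ^ 3 < 1 / 8 := by
    have : e ^ 3 = e * e ^ 2 := by ring
    nlinarith
  have h6 : 0 < e ^ 4 := by positivity
  have h7 : e ^ 2 / 6 < 1 / 6 := by linarith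
  have h8 : e ^ 3 < e / 8 := by
    have : e ^ 3 = e * e ^ 2 := by ring
    have h9 : e ^ 2 < 1 / 8 := by nlinarith
    nlinarith
  linarith

end Pool.Agent.PVD.L.H60
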