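import Pool.Agent.PVD.StmtsM2

/-! MP_e25c73_gt, block M2, row MB3. -/

set_option autoImplicit false
open MeasureTheory Filter Topology Set

namespace Pool.Agent.PVD.M.H60

open Pool.Agent.PVD.L

theorem mb3 (hM : Mb1Stmt) (hS : _root_.PVD.WSGStmt) (hP : _root_.PVD.WPSStmt) : Mb3Stmt := by
  intro k m hk hm A h hA hh
  obtain ⟨_, _, h2n, _, hRO, hHn, hsc, _, _, _, hsum⟩ := hM k m hk hm
  have hn0 : (0 : ℝ) < nn k m := by
    have : 0 < nn k m := by omega
    exact_mod_cast this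
  have hpos : ∀ g : Fin 4 → ℝ, (∀ i ∈ A, 0 < g i) → ∀ r ∈ CR k m A, 0 < Hn k m g r := by
    intro g hg r hr
    obtain ⟨i, hi, rfl⟩ := Finset.mem_image.1 hr
    rw [hHn]
    exact mul_pos (hsc i) (hg i hi)
  have hW : ∀ g : Fin 4 → ℝ, (∀ i ∈ A, 0 < g i) → 0 < WW k m A g := fun g hg =>
    (hP (nn k m) (CR k m A) (Hn k m g) (hRO A hA)).2 (hpos g hg)
  have hW0 := hW h hh
  obtain ⟨e1, e2, e3⟩ := hS (nn k m) (CR k m A) (Hn k m h) (by omega) (hRO A hA) (hpos h hh)
  rw [hsum] at e1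
  have hW0' : 0 < _root_.PVD.W (nn k m) (CR k m A) (Hn k m h) := hW0
  have hnW : (0 : ℝ) < nn k m * WW k m A h := mul_pos hn0 hW0
  have heul : ∑ i ∈ A, al k m A h i * h i = 1 := by
    have h1 : ∑ i ∈ A, al k m A h i * h i =
        (∑ i ∈ A, _root_.PVD.dW (nn k m) (CR k m A) (Hn k m h) (cm k m i) *
          Hn k m h (cm k m i)) / (nn k m * WW k m A h) := by
      rw [Finset.sum_div]
      refine Finset.sum_congr rfl fun i _ => ?_
      rw [hHn]
      unfold al
      ring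
    rw [h1, e1]
    exact div_self hnW.ne'
  refine ⟨hW0, heul, ?_, ?_⟩
  · intro i hi
    unfold al
    apply div_nonneg _ hnW.le
    exact mul_nonneg (hsc i).le (e2 _ (Finset.mem_image_of_mem _ hi))
  · intro h' hh'
    have h1 := e3 (Hn k m h') (hpos h' hh')
    rw [hsum] at h1
    have hW1 := hW h' hh'
    have hnn : (0 : ℝ) < (nn k m : ℝ) ^ (nn k m) := pow_pos hn0 _
    unfold SS
    rw [Real.log_mul hnn.ne' hW1.ne', Real.log_mul hnn.ne' hW0.ne']
    have h2 : ∑ i ∈ A, _root_.PVD.dW (nn k m) (CR k m A) (Hn k m h) (cm k m i) *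
        (Hn k m h' (cm k m i) - Hn k m h (cm k m i)) /
          _root_.PVD.W (nn k m) (CR k m A) (Hn k m h) =
        (nn k m : ℝ) * ((∑ i ∈ A, al k m A h i * h' i) - 1) := by
      rw [← heul, ← Finset.sum_sub_distrib, Finset.mul_sum]
      refine Finset.sum_congr rfl fun i _ => ?_
      rw [hHn, hHn]
      unfold al WW
      field_simp
    rw [h2] at h1
    have h3 : (1 / (nn k m : ℝ)) * (Real.log ((nn k m : ℝ) ^ (nn k m)) +
        Real.log (WW k m A h')) ≤ (1 / (nn k m : ℝ)) * (Real.log ((nn k m : ℝ) ^ (nn k m)) +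
        (Real.log (WW k m A h) + (nn k m : ℝ) * ((∑ i ∈ A, al k m A h i * h' i) - 1))) := by
      apply mul_le_mul_of_nonneg_left _ (by positivity)
      have h4 : Real.log (WW k m A h') ≤ Real.log (WW k m A h) +
        (nn k m : ℝ) * ((∑ i ∈ A, al k m A h i * h' i) - 1) := h1
      linarith
    refine h3.trans (le_of_eq ?_)
    field_simp
    ring

end Pool.Agent.PVD.M.H60
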